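import Pool.Agent.Helper191_PAC.Gal

set_option autoImplicit false

open CategoryTheory AlgebraicGeometry

namespace Pool.Agent.Results.MP_023059_nt.PacCounterexample

/-- Every geometrically integral scheme locally of finite type over the field `K` has a
`K`-rational point, that is, its structure morphism to `Spec K` has a section. -/
def AllHavePoints (K : Type) [Field K] : Prop :=
  ∀ (X : Scheme.{0}) (f : X ⟶ Spec (.of K)), LocallyOfFiniteType f → GeometricallyIntegral f →
    ∃ s : Spec (.of K) ⟶ X, s ≫ f = 𝟙 (Spec (.of K))

/-- The absolute Galois group of `K` (automorphisms of a separable closure, with the Krull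
topology) is topologically generated by a finite set. -/
def GaloisFinitelyGenerated (K : Type) [Field K] : Prop :=
  ∃ S : Finset (SeparableClosure K ≃ₐ[K] SeparableClosure K),
    (Subgroup.closure
      (S : Set (SeparableClosure K ≃ₐ[K] SeparableClosure K))).topologicalClosure = ⊤

/-- There is a field `K` of characteristic zero such that every geometrically integral scheme
locally of finite type over `K` has a `K`-rational point, while the absolute Galois group of `K`
is not topologically finitely generated. -/
theorem result : ∃ (K : Type) (_ : Field K) (_ : CharZero K),
    AllHavePoints K ∧ ¬ GaloisFinitelyGenerated K := by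
  obtain ⟨K, hreg, hsol⟩ := Pool.Agent.Helper191_PAC.exists_pac
  exact ⟨K, inferInstance, inferInstance,
    fun X f _ _ => Pool.Agent.Helper191_PAC.exists_section K hsol X f,
    fun ⟨S, hS⟩ => Pool.Agent.Helper191_PAC.not_fg K hreg S hS⟩

end Pool.Agent.Results.MP_023059_nt.PacCounterexample
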